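import Mathlib
import Pool.Agent.TH115.GD.Defs
import Pool.Agent.TH115.ID.Defs
import Pool.Agent.R939.EI.Tw1
import Pool.Agent.K6.H71.DickFin

/-!
# The Tate conjecture for a positive proportion of the prime twists, in towers of Dickson covers

Let `k` be a finite field with `q` elements, `q` odd, `K = k(t)`, `F = k'(t)` with `k'` a separable
closure of `k`, and let `E : y² = x (x² + a x + b)` be an elliptic curve over `K`, `a`, `b` polynomials,
`d = a² - 4 b`. `TateAtTwo` says that all the classes in `V₂ Sel(E / F)` which are fixed by the Galois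
group of `k` come from `E(K)`: this is the Tate conjecture for divisors on the elliptic surface over the
projective line with generic fibre `E` (over a finite field, the conjecture for one prime implies the
conjecture for all primes and the equality of the order of the pole of the zeta function with the rank).

For `ε = 1` or `ε = -1` let `D_m(t, ε)` be the Dickson polynomial of degree `m`, with
`D_m(y + ε / y, ε) = y ^ m + (ε / y) ^ m`; for `ε = 1` it is `2 T_m(t / 2)`, `T_m` the polynomial of
Chebyshev.

Theorem. Let `b` and `d` satisfy the condition `NotNorm` (not a constant times a square or times a norm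
of a polynomial over the quadratic extension of `k`), and let `OnlyTrivial` hold for `(a, b)` and for
`(-2 a, d)`, the curve isogenous to `E`; this holds for example if `b` and `d` are irreducible of odd
degree. Suppose that `b d` and `b`, `d`, `b d` times `t² - 4 ε` are not constants times squares, and let
`ℓ` be an odd prime such that the polynomials `π(D_ℓ(t, ε))` are irreducible for the primes `π` which
divide `b d`. Let `η > 0`. Then for all sufficiently large `n` for which `ℓ` divides `q ^ (2 n) - 1` there
are at least `((1 - 1 / ℓ) / 8 - η) q ^ n / n` monic irreducible polynomials `D` of degree `n` such that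
for **all** `j ≥ 0` and all constants `c ≠ 0` the Tate conjecture holds for the base change by
`t ↦ D_{ℓ ^ j}(t, ε)` of the quadratic twist of `E` by `c D`.

The number of all the monic irreducible polynomials of degree `n` is `q ^ n / n + O(q ^ (n / 2))`. If `ℓ`
does not divide `q ^ (2 n) - 1` then the polynomial `D_ℓ` permutes the field with `q ^ n` elements and no
prime of degree `n` remains prime in the cover. The geometric genus of the surfaces tends to infinity with
`j`. The Galois closures of the covers are dihedral over the constants.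

Proof. By the criterion of `dickson_covers` (`Pool.Agent.K6.H71.Dick`) it is enough that `b` and `d` are
not squares modulo `D` and that `y` is not an `ℓ`-th power in the field generated by `y`, for all
`y + ε / y` equal to a root of `b d D`. For a root `x` of `D` in the field `E` with `q ^ n` elements this
follows if `x` is not a value of `D_ℓ` on `E`. Let `s = ± 1` with `ℓ ∣ q ^ n - s`. If `x² - 4 ε ≠ 0` has
the quadratic character `s`, then `x` has `ℓ` or no preimages. Hence by the bounds of Weil for the
quadratic characters of `b`, `d`, `t² - 4 ε`, their products and their compositions with `D_ℓ` the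
proportion of the `x` with character `s` at which `b`, `d` are not squares and which are not values of
`D_ℓ` is `(1 - 1 / ℓ) / 8 + o(1)`.
-/

namespace Pool.Agent.Results.MP_8ac872_ag.DicksonTowers

open Polynomial Pool.Agent.TH115.GD Pool.Agent.R939.EI

theorem result {k k' K F : Type} [Field k] [Fintype k] [Field k'] [Algebra k k'] [Field K]
    [Algebra k[X] K] [Field F] [Algebra k'[X] F] [IsFractionRing k'[X] F] [Algebra K F]
    (hT : IsTower k k' K F) (hk : ringChar k ≠ 2) {a b : k[X]}
    (hNb : NotNorm b) (hNd : NotNorm (a ^ 2 - 4 * b)) (hO : OnlyTrivial a b)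
    (hO' : OnlyTrivial (-2 * a) (a ^ 2 - 4 * b)) {ε : k} (hε : ε ^ 2 = 1)
    (h1 : ∀ (c : k) (r : k[X]), b * (a ^ 2 - 4 * b) ≠ C c * r ^ 2)
    (h2 : ∀ (c : k) (r : k[X]), b * (X ^ 2 - C (4 * ε)) ≠ C c * r ^ 2)
    (h3 : ∀ (c : k) (r : k[X]), (a ^ 2 - 4 * b) * (X ^ 2 - C (4 * ε)) ≠ C c * r ^ 2)
    (h4 : ∀ (c : k) (r : k[X]), b * (a ^ 2 - 4 * b) * (X ^ 2 - C (4 * ε)) ≠ C c * r ^ 2)
    {ℓ : ℕ} (hℓ : ℓ.Prime) (hℓ2 : ℓ ≠ 2)
    (hi : ∀ π : k[X], Irreducible π → π ∣ b * (a ^ 2 - 4 * b) →
      Irreducible (π.comp (dickson 1 ε ℓ)))
    {η : ℝ} (hη : 0 < η) :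
    ∃ n0 : ℕ, ∀ n : ℕ, n0 ≤ n → ℓ ∣ Fintype.card k ^ (2 * n) - 1 → ∃ T : Finset k[X],
      (∀ D ∈ T, D.Monic ∧ Irreducible D ∧ D.natDegree = n ∧
        ∀ (c : k) (j : ℕ), c ≠ 0 →
          TateAtTwo (F := F) k'
            (crvT (algebraMap k[X] K ((C c * (a * D)).comp (dickson 1 ε (ℓ ^ j))))
              (algebraMap k[X] K ((C (c ^ 2) * (b * D ^ 2)).comp (dickson 1 ε (ℓ ^ j)))))) ∧
      (1 / 8 * (1 - 1 / (ℓ : ℝ)) - η) * (Fintype.card k : ℝ) ^ n ≤ n * T.card :=
  Pool.Agent.K6.H71.Dick.dickson_prime_twists hT hk hNb hNd hO hO' hε h1 h2 h3 h4 hℓ hℓ2 hi hη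

end Pool.Agent.Results.MP_8ac872_ag.DicksonTowers
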