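import Mathlib
import Pool.Agent.TH115.GD.Defs
import Pool.Agent.TH115.ID.Defs
import Pool.Agent.R939.EI.Tw1
import Pool.Agent.R915.It.Main
import Pool.Agent.K6.H71.AS2
import Pool.Agent.K6.H71.MQ.Stm
import Pool.Agent.K6.H71.MQ.Fin

/-!
# The Tate conjecture for elliptic surfaces over multiquadratic covers of the covers in towers of the line
over a finite field: base curves of every genus

Let `k` be a finite field with `q` elements, of characteristic `p ≠ 2`, `K = k(t)`, `F = k'(t)` with `k'`
a separable closure of `k`, and let `E : y² = x (x² + a x + b)` be an elliptic curve over `K`, `a`, `b`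
polynomials, `d = a² - 4 b`. Let `b` and `d` satisfy the condition `NotNorm` (not a constant times a
square or times a norm of a polynomial over the quadratic extension of `k`), and let `OnlyTrivial` hold
for `(a, b)` and for `(-2 a, d)`, the curve isogenous to `E`; this holds for example if `b` and `d` are
irreducible of odd degree. Let `M` be a set of prime numbers and `S` a subring of `k` such that the values
at the elements of `S` of the monic prime factors of `b d` are not `ℓ`-th powers in `k`, for `ℓ` in `M`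
(`M` may be empty). Let `H` (`InTower`) be the set of the composites `h` of the polynomials `tᵐ + c`,
`c` in `S`, `m` odd with all prime factors in `M`, and of the polynomials `h₁ ∘ A ∘ h₂` with such `h₁`,
`h₂` and an Artin-Schreier polynomial `A = t ^ p - r ^ (p - 1) t + w`, with the condition on traces of
`WildTowers`; `t` is in `H`.

Let `G` be the set of the monic irreducible `D` such that `b` and `d` are not squares modulo `D`
(`GoodPrime`).

Theorem. Let `h` be in `H`, and let `E_h` be the base change of `E` by `t ↦ h(t)`.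

(1) Let `D₁, …, D_r` be such that `b(h)` and `d(h)` are not squares modulo any prime which divides one of
them, and such that no nonempty partial product is a constant times a square; let `e₁, …, e_r ≠ 0` be
constants and `L = K(√(e₁ D₁), …, √(e_r D_r))`, the function field of a geometrically irreducible curve
`C` over `k`, a covering of the line with the group `(ℤ/2)^r`. Then the Tate conjecture at 2 holds for the
elliptic surface over `C` whose generic fibre is the twist of `E_h` by `e₀ D₀`, for all constants
`e₀ ≠ 0` and all `D₀` with the same property as the `D_i`.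

(2) The polynomials `D(h)`, `D` in `G`, are independent and have this property. So for every finite subset
`T` of `G` and all constants `e_D ≠ 0` the conclusion of (1) holds over the compositum
`L = K(√(e_D D(h)), D in T)` and, if `T` is not empty, over the field of the hyperelliptic curve
`s² = e ∏ D(h(t))` (`D` in `T`), `e ≠ 0`, for the twists by `e₀ D₀(h)`, `D₀` a product of elements of `G`.

(3) If `b d` is not a constant times a square and `η > 0`, then for all sufficiently large `n` there are
at least `(1 / 4 - η) q ^ n / n` elements of degree `n` in `G` (there are about `q ^ n / n` monic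
irreducible polynomials of degree `n`). The set `G` does not depend on `h`.

The statement of the Tate conjecture (`TateAtTwoOver`, in `Pool.Agent.K6.H71.MQ.Stm`): all the classes in
`V₂ Sel(E / F L)`, where `F L` is the function field of `C` over `k'`, that are fixed by the Galois group
of `k`, come from `E(L)`. Here the elements of the Selmer group are the continuous cocycles of
`Gal(Ω / F L)` with values in `T₂ E` which are coboundaries over all completions of `F L`; `Ω` is a
separable closure of `F`. Over a finite field this implies the Tate conjecture for divisors on the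
surface for all primes and the conjecture of Birch and Swinnerton-Dyer for `E_h` over `L`.

The genus of `C` is not bounded, and `h` is in arbitrarily high covers; the earlier results on this
problem on elliptic surfaces have the line as base.

Proof. If `L' = L(√D)`, `D` in `K`, and `s` is an automorphism over `F L` with `s √D = -√D`, then for a
class `c` over `F L'` the corestriction of `c`, a class of `E` over `F L`, and the corestriction of `c` as a
class of the twist `E^D` have the restrictions `c + s c` and `c - s c`, with the sum `2 c`. The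
corestrictions are given by explicit cocycles (`cor`); they are again locally trivial (`co_loc`) and
their classes are fixed by the Galois group of `L` if the class of `c` is fixed by that of `L'`
(`co_inv`). By induction on `r` it is enough to know the statement over `K` for all the twists by the
products of the `e_i D_i`, which follows from the criterion for twists (`Pool.Agent.R939.EI.Tw1`).
-/

namespace Pool.Agent.Results.MP_8ac872_ag.MultiquadraticTowers

open Polynomial Pool.Agent.TH115.GD Pool.Agent.R939.EI Pool.Agent.R915.It Pool.Agent.K6.H71.MQ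

/-- The polynomials in the towers, for `f = b d`. -/
def InTower (p : ℕ) {k : Type} [Field k] [Algebra (ZMod p) k] (M : Set ℕ) (S : Subring k)
    (f h : k[X]) : Prop :=
  IsComposite M (S : Set k) h ∨
  ∃ (h₁ h₂ : k[X]) (r w : k), IsComposite M (S : Set k) h₁ ∧ IsComposite M (S : Set k) h₂ ∧
    r ∈ S ∧ w ∈ S ∧ r ≠ 0 ∧ h = h₁.comp ((X ^ p - C (r ^ (p - 1)) * X + C w).comp h₂) ∧
    ∀ π : k[X], Irreducible π → π.Monic → π ∣ f →
      Algebra.trace (ZMod p) k
        ((-(π.comp h₁).nextCoeff - (π.comp h₁).natDegree * w) / r ^ p) ≠ 0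

/-- The set `G`. -/
def GoodPrime {k : Type} [Field k] (a b D : k[X]) : Prop := D.Monic ∧ Irreducible D ∧ InertIn a b D

section defs

variable {k : Type} [Field k] (k' K F : Type) [Field k'] [Field K] [Algebra k[X] K] [Field F]
  [Algebra k'[X] F] [IsFractionRing k'[X] F] [Algebra K F]

/-- Part (1), for the curve with the coefficients `a`, `b` (which are `a(h)`, `b(h)` in the theorem). -/
def MultiquadraticCovers (a b : k[X]) : Prop :=
  ∀ (r : ℕ) (D : Fin r → k[X]) (e : Fin r → k) (δ : Fin r → Sep F),
    (∀ i, InertIn a b (D i)) → (∀ i, e i ≠ 0) →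
    (∀ I : Finset (Fin r), I.Nonempty → ∀ (c : k) (g : k[X]), ∏ i ∈ I, D i ≠ C c * g ^ 2) →
    (∀ i, SqrtOf K F (C (e i) * D i) (δ i)) →
    ∀ (D₀ : k[X]) (e₀ : k), InertIn a b D₀ → e₀ ≠ 0 →
      HoldsOver k' K F (C e₀ * (a * D₀)) (C (e₀ ^ 2) * (b * D₀ ^ 2)) δ

/-- Part (2). -/
def PrimeCovers (a b h : k[X]) : Prop :=
  ∀ T : Finset k[X], (∀ D ∈ T, GoodPrime a b D) →
    ∀ (D₀ : k[X]) (e₀ : k), InertIn a b D₀ → e₀ ≠ 0 →
    (∀ (e : T → k) (δ : T → Sep F), (∀ D, e D ≠ 0) →
      (∀ D, SqrtOf K F (C (e D) * (D : k[X]).comp h) (δ D)) →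
      HoldsOver k' K F (C e₀ * (a * D₀).comp h) (C (e₀ ^ 2) * (b * D₀ ^ 2).comp h) δ) ∧
    (T.Nonempty → ∀ (e : k) (δ : Unit → Sep F), e ≠ 0 →
      SqrtOf K F (C e * (∏ D ∈ T, D).comp h) (δ ()) →
      HoldsOver k' K F (C e₀ * (a * D₀).comp h) (C (e₀ ^ 2) * (b * D₀ ^ 2).comp h) δ)

end defs

theorem result {k k' K F : Type} [Field k] [Fintype k] [Field k'] [Algebra k k'] [Field K]
    [Algebra k[X] K] [Field F] [Algebra k'[X] F] [IsFractionRing k'[X] F] [Algebra K F]
    (hT : IsTower k k' K F) {p : ℕ} [Fact p.Prime] [Algebra (ZMod p) k] (hp : p ≠ 2) {a b : k[X]}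
    (hNb : NotNorm b) (hNd : NotNorm (a ^ 2 - 4 * b)) (hO : OnlyTrivial a b)
    (hO' : OnlyTrivial (-2 * a) (a ^ 2 - 4 * b)) {M : Set ℕ} {S : Subring k}
    (hN : NonResidue M (S : Set k) (b * (a ^ 2 - 4 * b))) :
    -- (1)
    (∀ h : k[X], InTower p M S (b * (a ^ 2 - 4 * b)) h →
      MultiquadraticCovers k' K F (a.comp h) (b.comp h)) ∧
    -- (2)
    (∀ h : k[X], InTower p M S (b * (a ^ 2 - 4 * b)) h → PrimeCovers k' K F a b h) ∧
    -- (3)
    ((∀ (c : k) (g : k[X]), b * (a ^ 2 - 4 * b) ≠ C c * g ^ 2) → ∀ η : ℝ, 0 < η →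
      ∃ n0 : ℕ, ∀ n : ℕ, n0 ≤ n → ∃ T : Finset k[X],
        (∀ D ∈ T, GoodPrime a b D ∧ D.natDegree = n) ∧
        (1 / 4 - η) * (Fintype.card k : ℝ) ^ n ≤ n * T.card) := by
  have hchar : CharP k p := charP_of_injective_algebraMap (algebraMap (ZMod p) k).injective p
  have hk : ringChar k ≠ 2 := by rwa [ringChar.eq k p]
  have h2 : (2 : k) ≠ 0 := Ring.two_ne_zero hk
  have hb0 : b ≠ 0 := by
    rintro rfl
    exact (hNb 0 1 0 0 (by simp)).1 rfl
  have hd0 : a ^ 2 - 4 * b ≠ 0 := by
    intro h0
    exact (hNd 0 1 0 0 (by rw [h0]; simp)).1 rfl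
  have hu : ¬ IsUnit (b * (a ^ 2 - 4 * b)) := by
    intro hu
    obtain ⟨c, hc, e⟩ := Polynomial.isUnit_iff.1 (isUnit_of_mul_isUnit_left hu)
    exact (hNb c 1 1 0 (by rw [← e]; simp)).1 rfl
  have hM := Pool.Agent.K6.H71.AS.dvd_of_nonResidue (mul_ne_zero hb0 hd0) hu hN
  have hi : ∀ h : k[X], InTower p M S (b * (a ^ 2 - 4 * b)) h → Inert (b * (a ^ 2 - 4 * b)) h := by
    rintro h (hh | hh)
    · exact inert_composite hN hh
    · exact Pool.Agent.K6.H71.AS.inert_wild (p := p) hN hh
  have hodd : ∀ h : k[X], InTower p M S (b * (a ^ 2 - 4 * b)) h → Odd h.natDegree := by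
    rintro h (hh | hh)
    · exact hh.odd
    · exact Pool.Agent.K6.H71.AS.odd_wild hp hh
  have hr : ∀ h : k[X], InTower p M S (b * (a ^ 2 - 4 * b)) h →
      Pool.Agent.K6.H71.AS.OddRel h := by
    rintro h (hh | hh)
    · exact Pool.Agent.K6.H71.AS.oddRel_composite hh hM
    · exact Pool.Agent.K6.H71.AS.oddRel_wild hp hM hh
  refine ⟨?_, ?_, ?_⟩
  · intro h hh r D e δ hD he hind hδ D₀ e₀ hD₀ he₀
    exact multi_main hT h2 hNb hNd hO hO' (hodd h hh) (hi h hh) D e δ hD he hind hδ D₀ e₀ hD₀ he₀
  · intro h hh T hTG D₀ e₀ hD₀ he₀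
    have hcomp : ∀ {D : k[X]}, InertIn a b D → InertIn (a.comp h) (b.comp h) (D.comp h) :=
      fun {D} hD => Pool.Agent.K6.H71.AS.inertIn_comp (hodd h hh).pos.ne' (hr h hh) hD
    have e1 : C e₀ * (a * D₀).comp h = C e₀ * (a.comp h * D₀.comp h) := by rw [mul_comp]
    have e2 : C (e₀ ^ 2) * (b * D₀ ^ 2).comp h = C (e₀ ^ 2) * (b.comp h * D₀.comp h ^ 2) := by
      rw [mul_comp, pow_comp]
    rw [e1, e2]
    have hI : ∀ T' : Finset k[X], T' ⊆ T → T'.Nonempty → ∀ (c : k) (g : k[X]),
        (∏ D ∈ T', D).comp h ≠ C c * g ^ 2 := fun T' hT' hne =>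
      ne_sq_comp (hodd h hh) (prod_ne_sq (fun D hD => ⟨(hTG D (hT' hD)).1, (hTG D (hT' hD)).2.1⟩) hne)
    refine ⟨fun e δ he hδ => ?_, fun hne e δ he hδ => ?_⟩
    · refine multi_main hT h2 hNb hNd hO hO' (hodd h hh) (hi h hh) (fun D : T => (D : k[X]).comp h)
        e δ (fun D => hcomp (hTG D D.2).2.2) he (fun I hI' c g hcg => ?_) hδ _ e₀ (hcomp hD₀) he₀
      refine hI (I.map (Function.Embedding.subtype _)) ?_ (by simpa using hI') c g ?_
      · intro D hD
        obtain ⟨D', _, rfl⟩ := Finset.mem_map.1 hD
        exact D'.2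
      · rw [prod_comp, Finset.prod_map]
        exact hcg
    · refine multi_main hT h2 hNb hNd hO hO' (hodd h hh) (hi h hh)
        (fun _ : Unit => (∏ D ∈ T, D).comp h) (fun _ => e) δ (fun _ => ?_) (fun _ => he)
        (fun I hI' c g hcg => ?_) (fun _ => hδ) _ e₀ (hcomp hD₀) he₀
      · exact hcomp (inertIn_prod _ T fun D hD => (hTG D hD).2.2)
      · refine hI T (Finset.Subset.refl _) hne c g ?_
        obtain ⟨y, hy⟩ := hI'
        rw [Finset.eq_singleton_iff_unique_mem.2 ⟨hy, fun _ _ => rfl⟩, Finset.prod_singleton] at hcg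
        exact hcg
  · intro hbd η hη
    obtain ⟨n0, hn⟩ := Pool.Agent.K6.H71.AS.quarter hk hNb hNd hbd hη
    refine ⟨n0, fun n hnn => ?_⟩
    obtain ⟨T, hT', hc⟩ := hn n hnn
    refine ⟨T, fun D hD => ?_, hc⟩
    obtain ⟨h3, h4, h5, h6⟩ := hT' D hD
    exact ⟨⟨h3, h4, h6⟩, h5⟩

end Pool.Agent.Results.MP_8ac872_ag.MultiquadraticTowers
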