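import Mathlib
import Pool.Agent.TH115.GD.Defs
import Pool.Agent.K6.H71.PT.Stm
import Pool.Agent.K6.H71.PT.Defs
import Pool.Agent.K6.H71.PT.Low
import Pool.Agent.K6.H71.PS.Cnt
import Pool.Agent.K6.H71.PS.Low4

/-!
# The Tate conjecture at `p` for surfaces `w ^ q = D ^ n f(x / D, t)` over all the coverings of the line
# over a finite field whose Galois closure has degree a power of `p`

Let `p` be a prime, `q > 1` a power of `p`, `k` a finite field, `K = k(t)`, `k'` an algebraic closure of `k`,
`F = k'(t)`, and `k₁` a field between `k` and `k'` which contains `q` different `q`-th roots of unity. Let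
`f(x, t) = 0` be a curve over `k` which is a branch curve over `k₁` (`IsBranchCurve`): smooth, absolutely
irreducible, `f` monic in `x` of degree `n` prime to `p`, without units besides the constants and without
ideal classes of order `p` over `k₁`. A prime of `k₁[t]` is inert if `f` is irreducible modulo this prime.
Examples: `f = f₀(x) - t` for ALL monic `f₀` of degree prime to `p` with nonzero derivative (`t - c` is inert
if `f₀ - c` is irreducible), and `f = g(x) - t ^ 2` for the elliptic curves `t ^ 2 = g(x)` without points of
order `p` over `k₁`.

Theorem. Let `D` be a polynomial over `k`, not zero, all of whose prime factors over `k₁` are inert (for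
example `D = 1`), and `J` the Jacobian of the curve `w ^ q = D ^ n f(x / D, t)` over `K` (its genus is
`(q - 1)(n - 1) / 2`).

(1) Let `N / K` be a finite Galois extension whose degree is a power of `p` (any `p`-group, possibly with an
extension of the constants), unramified except above inert primes and above `t = ∞`. Then for EVERY field `L`
between `K` and `N` the Tate conjecture at `p` holds for the surface with this generic fibre over the curve
with the function field `L`; there are no classes besides zero in `V_p Sel(J / F L)` which are fixed by the
Galois group of `L`.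

(2) This holds also for all the fields `L` which are obtained from `K` by adjoining finitely many times a
`p`-th root, if `L` is unramified except above inert primes and infinity. (`L / K` need not be contained in
such a Galois extension.)

(3) Let `h_i = e_i X ^ p + c_i` be polynomials over `k` and `H = h_0 ∘ ... ∘ h_{n-1}`. The critical values of
`H` are `β_i = h_0(h_1(... h_i(0)))`, `i < n`. If `f(x, β_i)` is irreducible over `k₁` for all `i < n` then
this holds for `L = K(z)`, where `H(z) = t`; that is, for the surface with the equation `w ^ q = f(x, H(z))`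
(twisted by `D(H(z))`).

(4) It holds for `L = K(P ^ (1 / p))`, `P ≠ 0` any polynomial over `k` all of whose prime factors over `k₁`
are inert: superelliptic base curves of every genus.

(5) The curves `f = f₀(x) - t` over ANY finite field `k` of characteristic not `p`: if the degree of `f₀` is
prime to `p - 1` or `k` contains the `q`-th roots of unity, all the conditions in (1), ..., (4) can be stated
over `k₁ = k`. For `p = 2` there is no condition: `q` is any power of 2, `k` any finite field of odd
characteristic.

(6), (7) The two families of branch curves.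

(8) For example over the field with five elements the Tate conjecture at 2 holds for the surfaces
`w ^ q = x ^ 3 + 3 x - hⁿ(z)`, where `hⁿ` is the `n`-th iterate of `h = X ^ 2 + 3`, for ALL powers `q > 1` of
2 and ALL `n` (and for the twists). The geometric genus tends to infinity with `n`.

(9) Let `f = g(x) - t`, `g = x ^ 3 + a x ^ 2 + b x + c`, over a finite field of characteristic not 2 or 3,
`a ^ 2 ≠ 3 b`. Then for all `η > 0` and all large `n` at least `(1/3 - η) |k| ^ n / n` of the monic primes of
degree `n` are inert.

By the theorems of Tate, Milne, Artin, Kato and Trihan the Tate conjecture for divisors of a surface over a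
finite field holds at all primes if it holds at one prime, and the conjecture of Birch and Swinnerton-Dyer
holds for `J / L`.

The starting result `MP_677d84_ag.InertTwists` is the case `L = K`, `k₁ = k`. Our result `QuadraticTowers` on
this problem was the case `p = q = 2`, `n = 3` of (2), (3), (6). The
starting results `MP_ff7320_nt.UniformOverTwoExtensions` and `MP_89bcae_ag.SurfacesOverTwoCovers` treat the
Galois extensions of 2-power degree for `p = q = 2`, `k` finite and a positive proportion of all `f`, with the
arithmetic Selmer groups and by the same descent along a 2-group. The statement of the Tate conjecture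
(`TateOver`, in `Pool.Agent.K6.H71.PT.Stm`): all the classes in `V_p Sel(J / F L)`, where `F L` is the
function field over `k'`, that are fixed by the Galois group of `L`, come from `J(L)`. Here the elements of
the Selmer group are the continuous cocycles of `Gal(Ω / F L)` with values in `T_p J` which are coboundaries
over all completions of `F L`; `Ω` is a separable closure of `F`. This is the Tate conjecture for divisors on
the surface at `p`: `Br` of the surface over `k'` is the Tate-Shafarevich group over `F L` (Grothendieck,
Artin); there is a rational section, the point at infinity.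

Proof. Let first `k₁ = k`. The `q`-th roots of unity act on `J`. Let `λ = 1 - ζ`, it divides `p` in the
endomorphisms, and a power of it is a multiple of `p`. For a field `L` consider the classes in
`H¹(F L, J[λ])` which are fixed by `Gal(Ω / L)` and locally trivial at the places NOT above the inert primes
and infinity (there is no condition at these). For `L = K` all these classes are trivial: such a class is
given by an element `z` of the function field of the branch curve whose norm is a `p`-th power, with
valuations divisible by `p` outside the inert primes; there is only one prime of the branch curve above an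
inert prime and its degree is prime to `p`, so the valuation there is divisible by `p` too. Let `L' / L` be a
cyclic extension of degree `p` that is ramified only above inert primes and infinity, with the group `G`. If
`M ≠ 0` is the group of these classes over `L'` then `M` is `p`-torsion and `G` is a `p`-group which acts on
`M` locally finitely, so there is a class `≠ 0` in `M` fixed by `G`; such a class comes from `L` (this uses
`J[λ](F L') = 0`), a contradiction. As the group is a `p`-group each field `L` is reached by such steps.
Finally if there are no classes over `L` the Tate conjecture at `p` follows, layer by layer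
(`Pool.Agent.K6.H71.PS`). In general let `L₁ = L k₁`. The fields `F L` and `F L₁` are the same, and a class
which is fixed by the Galois group of `L` is fixed by the Galois group of `L₁`; so it is zero. In (5) let `k₁`
be the field of the `q`-th roots of unity over `k`; its degree divides `(p - 1) q / p`, so it is prime to the
degree of `f₀`, and the inert primes remain inert.
-/

namespace Pool.Agent.Results.MP_8ac872_ag.PrimePowerCovers

open Polynomial Pool.Agent.TH115.GD Pool.Agent.K6.H71.PT

open Pool.Agent.K6.H71.PS (allOver superOver graphOver graphSuper graph_branch cubic_branch third g5 irr5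
  orbit5 overK_self)

open scoped Classical

/-- (4) The base curves `δ ^ p = P(t)` for the products `P` of inert primes. -/
def SuperellipticOver (k' K F : Type) {k : Type} [Field k] [Field k'] [Algebra k k'] [Field K]
    [Algebra k[X] K] [Field F] [Algebra k'[X] F] [IsFractionRing k'[X] F] [Algebra K F]
    (k₁ : Type) [Field k₁] [Algebra k k₁] (p q : ℕ) (f : k[X][X]) : Prop :=
  ∀ P : k[X], P ≠ 0 → IsInertOver k₁ f P → ∀ δ : Sep F,
    δ ^ p = algebraMap K (Sep F) (algebraMap k[X] K P) →
    HoldsOver k' K F k₁ p q f (IntermediateField.adjoin K {δ})

/-- (1) Galois extensions of `p`-power degree, (2) towers of `p`-th roots, (3) compositions of the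
polynomials `e X ^ p + c`, (4) superelliptic base curves, for all the curves over finite fields `k` which are
branch curves over the field `k₁` with the `q`-th roots of unity. -/
def Coverings (p s : ℕ) : Prop :=
  ∀ (k k₁ k' K F : Type) [Field k] [Finite k] [Field k₁] [Field k'] [Algebra k k₁] [Algebra k k']
    [Algebra k₁ k'] [IsScalarTower k k₁ k'] [Field K] [Algebra k[X] K] [Field F] [Algebra k'[X] F]
    [IsFractionRing k'[X] F] [Algebra K F] (ζ : k₁), IsPrimitiveRoot ζ (p ^ (s + 1)) →
    IsTower k k' K F → ∀ f : k[X][X], IsBranchCurve p (overK k₁ f) →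
      CoversOver k' K F k₁ p (p ^ (s + 1)) f ∧ RootTowersOver k' K F k₁ p (p ^ (s + 1)) f ∧
        CompositionsOver k' K F k₁ p (p ^ (s + 1)) f ∧ SuperellipticOver k' K F k₁ p (p ^ (s + 1)) f

/-- (5) The curves `f₀(x) = t`, with the conditions in (1), ..., (4) over `k`, if the degree of `f₀` is prime
to `p - 1` or `k` contains the `q`-th roots of unity. -/
def GraphCoverings (p s : ℕ) : Prop :=
  ∀ (k k' K F : Type) [Field k] [Finite k] [Field k'] [Algebra k k'] [Field K] [Algebra k[X] K]
    [Field F] [Algebra k'[X] F] [IsFractionRing k'[X] F] [Algebra K F], IsTower k k' K F →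
    (p : k) ≠ 0 → ∀ f₀ : k[X], f₀.Monic → p.Coprime f₀.natDegree → derivative f₀ ≠ 0 →
      ((∃ ζ : k, IsPrimitiveRoot ζ (p ^ (s + 1))) ∨ (p - 1).Coprime f₀.natDegree) →
      CoversOver k' K F k p (p ^ (s + 1)) (f₀.map C - C X) ∧
        RootTowersOver k' K F k p (p ^ (s + 1)) (f₀.map C - C X) ∧
        CompositionsOver k' K F k p (p ^ (s + 1)) (f₀.map C - C X) ∧
        SuperellipticOver k' K F k p (p ^ (s + 1)) (f₀.map C - C X)

/-- (6) The curves `f₀(x) = t` are branch curves. -/
def Graphs (p : ℕ) : Prop :=
  ∀ (k : Type) [Field k], (p : k) ≠ 0 → ∀ f₀ : k[X], f₀.Monic → p.Coprime f₀.natDegree →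
    derivative f₀ ≠ 0 → IsBranchCurve p (f₀.map C - C X)

/-- (7) The elliptic curves `t ^ 2 = g(x)` without points of order `p` over `k` are branch curves. -/
def EllipticCurves (p : ℕ) : Prop :=
  ∀ (k : Type) [Field k] (a b c : k), (2 : k) ≠ 0 → (cubic a b c).Separable →
    (∀ P : (⟨0, a, 0, b, c⟩ : WeierstrassCurve k).toAffine.Point, p • P = 0 → P = 0) →
    IsBranchCurve p ((cubic a b c).map C - C (X ^ 2))

/-- (8) The surfaces `w ^ q = x ^ 3 + 3 x - hⁿ(z)`, `h = X ^ 2 + 3`, over the field with five elements. -/
def OverFive (q : ℕ) : Prop :=
  ∀ (k' K F : Type) [Field k'] [Algebra (ZMod 5) k'] [Field K] [Algebra (ZMod 5)[X] K] [Field F]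
    [Algebra k'[X] F] [IsFractionRing k'[X] F] [Algebra K F], IsTower (ZMod 5) k' K F →
    ∀ (n : ℕ) (z : Sep F), IsRootOf (K := K) (pcomp 2 (fun _ => (1 : ZMod 5)) (fun _ => 3) n) z →
      HoldsOver k' K F (ZMod 5) 2 q ((X ^ 3 + C 3 * X : (ZMod 5)[X]).map C - C X)
        (IntermediateField.adjoin K {z})

/-- (9) One third of the primes are inert for cubic polynomials. -/
def OneThird : Prop :=
  ∀ (k : Type) [Field k] [Fintype k] (a b c : k), ringChar k ≠ 2 → (3 : k) ≠ 0 → a ^ 2 ≠ 3 * b →
    ∀ η : ℝ, 0 < η → ∃ n0 : ℕ, ∀ n : ℕ, n0 ≤ n → ∃ T : Finset k[X],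
      (∀ D ∈ T, D.Monic ∧ Irreducible D ∧ D.natDegree = n ∧
        IsInertProduct ((cubic a b c).map C - C X) D) ∧
      (1 / 3 - η) * (Fintype.card k : ℝ) ^ n ≤ n * T.card

/-- The main theorem and the examples. -/
theorem result :
    (∀ p s : ℕ, p.Prime → Coverings p s ∧ GraphCoverings p s) ∧
    (∀ p : ℕ, p.Prime → Graphs p ∧ (p ≠ 3 → EllipticCurves p)) ∧
    (∀ s : ℕ, OverFive (2 ^ (s + 1))) ∧ OneThird := by
  have graphs : ∀ p s : ℕ, p.Prime → GraphCoverings p s := by
    intro p s hp k k' K F _ _ _ _ _ _ _ _ _ _ hT hpk f₀ hm hc hd h
    obtain ⟨h1, h2, h3⟩ := graphOver hT hp s hpk hm hc hd h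
    exact ⟨h1, h2, h3, fun P hP hPi δ hδ => graphSuper hT hp s hpk hm hc hd h hP hPi hδ⟩
  refine ⟨fun p s hp => ⟨?_, graphs p s hp⟩, fun p hp => ⟨?_, fun h3 => ?_⟩, ?_, ?_⟩
  · intro k k₁ k' K F _ _ _ _ _ _ _ _ _ _ _ _ _ _ ζ hζ hT f hf
    obtain ⟨h1, h2, h3⟩ := allOver hT hp hζ hf
    exact ⟨h1, h2, h3, fun P hP hPi δ hδ => superOver hT hp hζ hf hP hPi hδ⟩
  · intro k _ hpk f₀ hm hc hd
    exact graph_branch hp hpk hm hc hd
  · intro k _ a b c h2 hs hP
    exact cubic_branch hp h3 h2 hs hP
  · intro s k' K F _ _ _ _ _ _ _ _ hT n z hz
    refine (graphs 2 s Nat.prime_two (ZMod 5) k' K F hT (by decide) (X ^ 3 + C 3 * X) g5.1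
      (by rw [g5.2]; decide) (by
        intro h
        have h1 := congrArg (Polynomial.eval 0) h
        simp at h1
        exact absurd h1 (by decide)) (Or.inr (by rw [g5.2]; decide))).2.2.1
      (fun _ => 1) (fun _ => 3) n (fun _ => one_ne_zero) (fun i _ => ?_) z hz
    have h1 := irr5 (orbit5 i 3 (Or.inr rfl))
    have h2 : ((X ^ 3 + C 3 * X : (ZMod 5)[X]).map C - C X).map
        (evalRingHom ((pcomp 2 (fun _ => (1 : ZMod 5)) (fun _ => 3) i).eval 3)) =
        (X ^ 3 + C 3 * X : (ZMod 5)[X]) -
          C ((pcomp 2 (fun _ => (1 : ZMod 5)) (fun _ => 3) i).eval 3) := by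
      simp
    rw [overK_self, Algebra.algebraMap_self, RingHom.id_apply, h2]
    exact h1
  · intro k _ _ a b c hk h3 hab η hη
    exact third hk h3 hab hη

end Pool.Agent.Results.MP_8ac872_ag.PrimePowerCovers
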