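import Mathlib
import Pool.Agent.TH115.GD.Defs
import Pool.Agent.TH115.ID.Defs
import Pool.Agent.R939.EI.Tw1
import Pool.Agent.R915.It.Main
import Pool.Agent.K6.H71.AS2

/-!
# The Tate conjecture for one quarter of the prime twists, in all towers of covers by `tᵐ + c` and
# Artin-Schreier polynomials

Let `k` be a finite field with `q` elements, of characteristic `p ≠ 2`, `K = k(t)`, `F = k'(t)` with `k'`
a separable closure of `k`, and let `E : y² = x (x² + a x + b)` be an elliptic curve over `K`, `a`, `b`
polynomials, `d = a² - 4 b`. `TateAtTwo` says that all the classes in `V₂ Sel(E / F)` which are fixed by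
the Galois group of `k` come from `E(K)`: this is the Tate conjecture for divisors on the elliptic surface
over the projective line with generic fibre `E` (over a finite field, the conjecture for one prime implies
the conjecture for all primes and the equality of the order of the pole of the zeta function with the
rank).

Let `b` and `d` satisfy the condition `NotNorm` (not a constant times a square or times a norm of a
polynomial over the quadratic extension of `k`), and let `OnlyTrivial` hold for `(a, b)` and for
`(-2 a, d)`, the curve isogenous to `E`; this holds for example if `b` and `d` are irreducible of odd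
degree. Let `M` be a set of prime numbers and `S` a subring of `k` such that the values at the elements of
`S` of the monic prime factors of `b d` are not `ℓ`-th powers in `k`, for `ℓ` in `M` (`M` may be empty).

Let `H` be the set of the polynomials `h` of the following kinds (`InTower`):

(a) the composites of the polynomials `tᵐ + c`, `c` in `S`, `m` odd with all prime factors in `M`;

(b) the polynomials `h₁ ∘ A ∘ h₂` with `h₁`, `h₂` of the kind (a) and `A = t ^ p - r ^ (p - 1) t + w`, `r`
and `w` in `S`, `r ≠ 0`, such that for all the monic primes `π` which divide `b d` the trace to the prime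
field of `Σ (x - w) / r ^ p`, where `x` runs over the roots of `π(h₁)`, is not zero. (The cover of the
line by `t ↦ A(t)` is an Artin-Schreier cover, wildly ramified at infinity.)

Theorem.

(1) For all `h` in `H`, all `D ≠ 0` such that `b(h)` and `d(h)` are not squares modulo any prime dividing
`D`, and all constants `e ≠ 0`, the Tate conjecture holds for the twist by `e D` of the base change of `E`
by `t ↦ h(t)`.

(2) If `b` and `d` are not squares modulo any prime dividing `D`, then `D(h)` has the property in (1), for
all `h` in `H`: the primes of `D` need not remain prime in these covers.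

(3) Let `b d` be not a constant times a square and `η > 0`. Then for all sufficiently large `n` there are
at least `(1 / 4 - η) q ^ n / n` monic irreducible polynomials `D` of degree `n` (there are about
`q ^ n / n` in all) such that for ALL `h` in `H` and all constants `e ≠ 0` the Tate conjecture holds for
the base change by `t ↦ h(t)` of the twist of `E` by `e D`.

(4) If `p` does not divide the degrees of the monic primes `π` dividing `b d`, and if `h₁` in (b) is
`h₀(tᵐ + c)` with `m ≠ 1`, then the condition on the traces in (b) is satisfied if the trace of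
`w / r ^ p` to the prime field is not zero (for each `r` this holds for all but `1 / p` of the `w` in
`k`).

The starting result `CompositeCovers` of this problem has in the place of (3) the kind (a) only, with
powers `m` of one prime number `ℓ`, and the number `((1 - s / ℓ) / 4 - η) q ^ n / n`, `s` the number of
elements of `S`; here nothing is lost when the set `M` or the subring `S` grows, for example for `S = k`.

Proof. The criterion of `Pool.Agent.R939.EI.Tw1` is applied to the curve obtained by the base change, with
the twist over the top field. Its hypotheses follow from those for `E` if the primes of `b d` remain prime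
and the degree of `h` is odd (`onlyTrivial_comp`, `notNorm_comp`). A prime of `D` splits in each step into
primes of relative degree `1` or an odd prime number, because the prime factors of `m` divide `q - 1` and
because a root `y` of `A(y) = x` is mapped by the Frobenius automorphism of `k(x)` to `y + r T`, `T` the
trace of `(x - w) / r ^ p` (`oddRel_pow`, `oddRel_asPol`), so non-squares remain non-squares. The same
formula with `T ≠ 0` shows that the primes of `b d` remain prime (`irreducible_asPol`).
-/

namespace Pool.Agent.Results.MP_8ac872_ag.WildTowers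

open Polynomial Pool.Agent.TH115.GD Pool.Agent.R939.EI Pool.Agent.R915.It

/-- The polynomials of the kinds (a) and (b), for `f = b d`. -/
def InTower (p : ℕ) {k : Type} [Field k] [Algebra (ZMod p) k] (M : Set ℕ) (S : Subring k)
    (f h : k[X]) : Prop :=
  IsComposite M (S : Set k) h ∨
  ∃ (h₁ h₂ : k[X]) (r w : k), IsComposite M (S : Set k) h₁ ∧ IsComposite M (S : Set k) h₂ ∧
    r ∈ S ∧ w ∈ S ∧ r ≠ 0 ∧ h = h₁.comp ((X ^ p - C (r ^ (p - 1)) * X + C w).comp h₂) ∧
    ∀ π : k[X], Irreducible π → π.Monic → π ∣ f →
      Algebra.trace (ZMod p) k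
        ((-(π.comp h₁).nextCoeff - (π.comp h₁).natDegree * w) / r ^ p) ≠ 0

theorem result {k k' K F : Type} [Field k] [Fintype k] [Field k'] [Algebra k k'] [Field K]
    [Algebra k[X] K] [Field F] [Algebra k'[X] F] [IsFractionRing k'[X] F] [Algebra K F]
    (hT : IsTower k k' K F) {p : ℕ} [Fact p.Prime] [Algebra (ZMod p) k] (hp : p ≠ 2) {a b : k[X]}
    (hNb : NotNorm b) (hNd : NotNorm (a ^ 2 - 4 * b)) (hO : OnlyTrivial a b)
    (hO' : OnlyTrivial (-2 * a) (a ^ 2 - 4 * b)) {M : Set ℕ} {S : Subring k}
    (hN : NonResidue M (S : Set k) (b * (a ^ 2 - 4 * b))) :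
    -- (1)
    (∀ h D : k[X], InTower p M S (b * (a ^ 2 - 4 * b)) h → InertIn (a.comp h) (b.comp h) D →
      ∀ e : k, e ≠ 0 →
        TateAtTwo (F := F) k' (crvT (algebraMap k[X] K (C e * (a.comp h * D)))
          (algebraMap k[X] K (C (e ^ 2) * (b.comp h * D ^ 2))))) ∧
    -- (2)
    (∀ h D : k[X], InTower p M S (b * (a ^ 2 - 4 * b)) h → InertIn a b D →
      InertIn (a.comp h) (b.comp h) (D.comp h)) ∧
    -- (3)
    ((∀ (c : k) (g : k[X]), b * (a ^ 2 - 4 * b) ≠ C c * g ^ 2) → ∀ η : ℝ, 0 < η →
      ∃ n0 : ℕ, ∀ n : ℕ, n0 ≤ n → ∃ T : Finset k[X],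
        (∀ D ∈ T, D.Monic ∧ Irreducible D ∧ D.natDegree = n ∧
          ∀ h : k[X], InTower p M S (b * (a ^ 2 - 4 * b)) h → ∀ e : k, e ≠ 0 →
            TateAtTwo (F := F) k' (crvT (algebraMap k[X] K ((C e * (a * D)).comp h))
              (algebraMap k[X] K ((C (e ^ 2) * (b * D ^ 2)).comp h)))) ∧
        (1 / 4 - η) * (Fintype.card k : ℝ) ^ n ≤ n * T.card) ∧
    -- (4)
    ((∀ π : k[X], Irreducible π → π.Monic → π ∣ b * (a ^ 2 - 4 * b) → ¬ p ∣ π.natDegree) →
      ∀ (h₀ h₂ : k[X]) (m : ℕ) (c r w : k), IsComposite M (S : Set k) h₀ →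
        IsComposite M (S : Set k) h₂ → Odd m → m ≠ 1 → (∀ ℓ : ℕ, ℓ.Prime → ℓ ∣ m → ℓ ∈ M) →
        c ∈ S → r ∈ S → w ∈ S → r ≠ 0 → Algebra.trace (ZMod p) k (w / r ^ p) ≠ 0 →
        InTower p M S (b * (a ^ 2 - 4 * b)) ((h₀.comp (X ^ m + C c)).comp
          ((X ^ p - C (r ^ (p - 1)) * X + C w).comp h₂))) := by
  have hchar : CharP k p := charP_of_injective_algebraMap (algebraMap (ZMod p) k).injective p
  have hk : ringChar k ≠ 2 := by rwa [ringChar.eq k p]
  have h2 : (2 : k) ≠ 0 := Ring.two_ne_zero hk
  have hb0 : b ≠ 0 := by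
    rintro rfl
    exact (hNb 0 1 0 0 (by simp)).1 rfl
  have hd0 : a ^ 2 - 4 * b ≠ 0 := by
    intro h0
    exact (hNd 0 1 0 0 (by rw [h0]; simp)).1 rfl
  have hu : ¬ IsUnit (b * (a ^ 2 - 4 * b)) := by
    intro hu
    obtain ⟨c, hc, e⟩ := Polynomial.isUnit_iff.1 (isUnit_of_mul_isUnit_left hu)
    exact (hNb c 1 1 0 (by rw [← e]; simp)).1 rfl
  have hM := Pool.Agent.K6.H71.AS.dvd_of_nonResidue (mul_ne_zero hb0 hd0) hu hN
  have hi : ∀ h : k[X], InTower p M S (b * (a ^ 2 - 4 * b)) h → Inert (b * (a ^ 2 - 4 * b)) h := by
    rintro h (hh | hh)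
    · exact inert_composite hN hh
    · exact Pool.Agent.K6.H71.AS.inert_wild (p := p) hN hh
  have hodd : ∀ h : k[X], InTower p M S (b * (a ^ 2 - 4 * b)) h → Odd h.natDegree := by
    rintro h (hh | hh)
    · exact hh.odd
    · exact Pool.Agent.K6.H71.AS.odd_wild hp hh
  have hr : ∀ h : k[X], InTower p M S (b * (a ^ 2 - 4 * b)) h →
      Pool.Agent.K6.H71.AS.OddRel h := by
    rintro h (hh | hh)
    · exact Pool.Agent.K6.H71.AS.oddRel_composite hh hM
    · exact Pool.Agent.K6.H71.AS.oddRel_wild hp hM hh
  refine ⟨?_, ?_, ?_, ?_⟩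
  · intro h D hh hD e he
    exact Pool.Agent.K6.H71.AS.tate_of_inert hT h2 hNb hNd hO hO' (hodd h hh) (hi h hh) hD he
  · intro h D hh hD
    exact Pool.Agent.K6.H71.AS.inertIn_comp (hodd h hh).pos.ne' (hr h hh) hD
  · intro hbd η hη
    obtain ⟨n0, hn⟩ := Pool.Agent.K6.H71.AS.quarter hk hNb hNd hbd hη
    refine ⟨n0, fun n hnn => ?_⟩
    obtain ⟨T, hT', hc⟩ := hn n hnn
    refine ⟨T, fun D hD => ?_, hc⟩
    obtain ⟨h3, h4, h5, h6⟩ := hT' D hD
    refine ⟨h3, h4, h5, fun h hh e he => ?_⟩
    exact Pool.Agent.K6.H71.AS.tate_of_oddRel hT h2 hNb hNd hO hO' (hodd h hh) (hi h hh)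
      (hr h hh) h6 he
  · intro hpd h₀ h₂ m c r w hh₀ hh₂ hm hm1 hmM hc hrS hw hr0 hTr
    exact Or.inr (Pool.Agent.K6.H71.AS.isWild_of_trace hM hpd hh₀ hh₂ hm hm1 hmM hc hrS hw hr0 hTr)

end Pool.Agent.Results.MP_8ac872_ag.WildTowers
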